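import Pool.Agent.HomRU.Assembly

set_option autoImplicit false

open Filter Topology

namespace Pool.Agent.Results.MP_85fa26_an.NoEmbedding

open Pool.Agent.HomRU

unseal VElem.instCStarAlgebra in
/-- There are a hyperfinite II₁ factor `R` with trace `τ` and a II₁ factor `M` on a separable
Hilbert space such that, for every free ultrafilter `𝒰` on `ℕ`, `M` embeds in `R^𝒰` but no affine
map of `Hom(M, R^𝒰)` into a real normed space is isometric for the metric `d` defined by a
generating sequence of contractions of `M`, whatever this sequence is.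

Here `M` is the group von Neumann algebra of the principal congruence subgroup `Γ(3)` of
`SL₂(ℤ)`, and `R` is a twisted group von Neumann algebra of a countable locally finite group. -/
theorem result.{u} :
    ∃ (H : Type) (_ : NormedAddCommGroup H) (_ : InnerProductSpace ℂ H) (_ : CompleteSpace H)
      (R : VonNeumannAlgebra H) (τ : TracialState (VElem R))
      (K : Type) (_ : NormedAddCommGroup K) (_ : InnerProductSpace ℂ K) (_ : CompleteSpace K)
      (M : VonNeumannAlgebra K),
      IsHyperfiniteIIOneFactor R ∧ TopologicalSpace.SeparableSpace K ∧ IsIIOneFactor M ∧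
      (∃ a : ℕ → VElem M, (∀ n, ‖a n‖ ≤ 1) ∧ Generates M a) ∧
      ∀ 𝒰 : Ultrafilter ℕ, (𝒰 : Filter ℕ) ≤ cofinite →
        Nonempty (UHom τ 𝒰 (VElem M)) ∧
        ∀ a : ℕ → VElem M, (∀ n, ‖a n‖ ≤ 1) → Generates M a →
          ∀ (B : Type u) (_ : NormedAddCommGroup B) (_ : NormedSpace ℝ B),
            ¬ ∃ Φ : HomSpace τ 𝒰 (VElem M) → B, IsAffine τ 𝒰 Φ ∧ IsIsometric τ 𝒰 a Φ :=
  ⟨ell2 FinG, inferInstance, inferInstance, inferInstance, SG.ω.vN, SG.ω.tr,
    ell2 G3, inferInstance, inferInstance, inferInstance, (trivCocycle G3).vN,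
    isHyperfinite_R, inferInstance, isIIOneFactor_G3, exists_generates, main_core⟩

end Pool.Agent.Results.MP_85fa26_an.NoEmbedding
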